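import Pool.Agent.Q129.NLExtremal

set_option autoImplicit false

/-!
For all `k ≥ 5` and `3 ≤ Δ ≤ k - 2` there is a connected graph of maximum degree `Δ` with
neighbor-locating chromatic number `k` and with `∑ j ∈ [1, Δ], k * (k - 1).choose j` vertices.
-/

namespace Pool.Agent.Results.MP_3eb9f6_co.AlwaysAttained

theorem result : ∀ k Δ : ℕ, 5 ≤ k → 3 ≤ Δ → Δ ≤ k - 2 →
    ∃ (V : Type) (_ : Fintype V) (G : SimpleGraph V) (_ : DecidableRel G.Adj), G.Connected ∧
      Q129.NeighborLocating.chiNL G = k ∧ G.maxDegree = Δ ∧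
      Fintype.card V = ∑ j ∈ Finset.Icc 1 Δ, k * (k - 1).choose j :=
  Q129.NLExtremal.main

end Pool.Agent.Results.MP_3eb9f6_co.AlwaysAttained
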